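import Pool.Agent.H770.GS.TF

/-!
# Project TF (helper770), subtask TF18: the numerical inequality for `b ≤ 1/2`
-/

set_option autoImplicit false

open MeasureTheory Set intervalIntegral Filter Topology

namespace Pool.Agent.H142.TF18

open Pool.Agent.H770.GS

/-- the lower bound of `S_TF17` -/
noncomputable def Lf (p q : ℝ) : ℝ :=
  1.178 + 4.70 * ((0.32 - q) / 2) - 4.72 * p + 23.3 * ((0.32 - q) / 2) ^ 2 / 2 -
    23.5 * (p * ((0.32 - q) / 2)) - 135 * (p * ((0.32 - q) / 2) ^ 2 / 2)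

lemma F_mono (β v : ℝ) (h0 : 0 ≤ β) (h1 : β ≤ 1 / 4) (hv0 : 0.28 ≤ v) (hv1 : v ≤ 0.32) :
    3 / 8 * Lf (1 / 56) (v * (3 / 4)) ≤ (1 - β) / 2 * Lf (β / 14) (v * (1 - β)) := by
  obtain ⟨w, rfl⟩ : ∃ w, β = 1 / 4 - w := ⟨1 / 4 - β, by ring⟩
  have hw0 : 0 ≤ w := by linarith
  have hw1 : w ≤ 1 / 4 := by linarith
  have key : (1 - (1 / 4 - w)) / 2 * Lf ((1 / 4 - w) / 14) (v * (1 - (1 / 4 - w))) -
      3 / 8 * Lf (1 / 56) (v * (3 / 4)) =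
      w * ((226871/175000) + (-741777/224000) * v + (6291/2560) * v ^ 2 + (319/875) * w +
        (-174367/56000) * (w * v) + (35433/8960) * (w * v ^ 2) + (-451/560) * (w ^ 2 * v) +
        (2981/1120) * (w ^ 2 * v ^ 2) + (135/224) * (w ^ 3 * v ^ 2)) := by
    unfold Lf; ring
  have a1 : 0.28 ^ 2 ≤ v ^ 2 := by gcongr
  have a2 : w * v ≤ 1 / 4 * 0.32 := by gcongr
  have a3 : w ^ 2 * v ≤ (1 / 4) ^ 2 * 0.32 := by gcongr
  have a4 : 0 ≤ w * v ^ 2 := by positivity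
  have a5 : 0 ≤ w ^ 2 * v ^ 2 := by positivity
  have a6 : 0 ≤ w ^ 3 * v ^ 2 := by positivity
  have hQ : 0 ≤ ((226871/175000) + (-741777/224000) * v + (6291/2560) * v ^ 2 + (319/875) * w +
        (-174367/56000) * (w * v) + (35433/8960) * (w * v ^ 2) + (-451/560) * (w ^ 2 * v) +
        (2981/1120) * (w ^ 2 * v ^ 2) + (135/224) * (w ^ 3 * v ^ 2)) := by
    linarith
  have := mul_nonneg hw0 hQ
  linarith

lemma L_mono (v w : ℝ) (_hv0 : 0.28 ≤ v) (hvw : v ≤ w) (hw1 : w ≤ 0.32) :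
    Lf (1 / 56) (w * (3 / 4)) ≤ Lf (1 / 56) (v * (3 / 4)) := by
  unfold Lf
  nlinarith [mul_nonneg (sub_nonneg.2 hvw) (sub_nonneg.2 hw1), mul_nonneg (sub_nonneg.2 hvw) (sub_nonneg.2 _hv0)]

/-- Taylor lower bound -/
lemma exp_lb (x : ℝ) (hx : 0 ≤ x) :
    1 + x + x ^ 2 / 2 + x ^ 3 / 6 + x ^ 4 / 24 + x ^ 5 / 120 + x ^ 6 / 720 ≤ Real.exp x := by
  have h := Real.sum_le_exp_of_nonneg hx 7
  simp only [Finset.sum_range_succ, Finset.sum_range_zero, Nat.factorial] at h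
  norm_num at h
  linarith

lemma exp_neg_ub (x : ℝ) (hx : 0 ≤ x) :
    Real.exp (-x) ≤ 1 / (1 + x + x ^ 2 / 2 + x ^ 3 / 6 + x ^ 4 / 24 + x ^ 5 / 120 + x ^ 6 / 720) := by
  rw [Real.exp_neg, ← one_div]
  exact one_div_le_one_div_of_le (by positivity) (exp_lb x hx)

lemma exp_neg_lb (x : ℝ) (hx : 0 ≤ x) (hx1 : x ≤ 1) :
    1 - x + x ^ 2 / 2 - x ^ 3 / 6 - x ^ 4 * (5 / 96) ≤ Real.exp (-x) := by
  have h := Real.exp_bound (x := -x) (by rw [abs_neg, abs_of_nonneg hx]; exact hx1) (n := 4) (by norm_num)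
  rw [abs_le] at h
  have h1 := h.1
  simp only [Finset.sum_range_succ, Finset.sum_range_zero, Nat.factorial, abs_neg, abs_of_nonneg hx] at h1
  norm_num at h1
  nlinarith [h1]

lemma Eb_bound (c c0 : ℝ) (h0 : 0 < c0) (h : c0 ≤ c) : Eb c ≤
    2 / ((1 + (8.748 * c0) + (8.748 * c0) ^ 2 / 2 + (8.748 * c0) ^ 3 / 6 + (8.748 * c0) ^ 4 / 24 +
      (8.748 * c0) ^ 5 / 120 + (8.748 * c0) ^ 6 / 720) * (42 / 5 * c0 * ((42 / 5 * c0) ^ 2 + 4))) := by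
  have hc : 0 < c := by linarith
  unfold Eb
  have hpi := Real.pi_gt_d4
  have e1 : Real.exp (c * (21 / 5) ^ 2 - 42 / 5 * c * Real.pi) ≤ Real.exp (-(8.748 * c0)) := by
    apply Real.exp_le_exp.2
    nlinarith
  have e2 := exp_neg_ub (8.748 * c0) (by positivity)
  have e3 : 0 < 42 / 5 * c0 * ((42 / 5 * c0) ^ 2 + 4) := by positivity
  have e4 : 42 / 5 * c0 * ((42 / 5 * c0) ^ 2 + 4) ≤ 42 / 5 * c * ((42 / 5 * c) ^ 2 + 4) := by gcongr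
  set T := (1 + (8.748 * c0) + (8.748 * c0) ^ 2 / 2 + (8.748 * c0) ^ 3 / 6 + (8.748 * c0) ^ 4 / 24 +
      (8.748 * c0) ^ 5 / 120 + (8.748 * c0) ^ 6 / 720) with hT
  have hT0 : 0 < T := by positivity
  calc Real.exp (c * (21 / 5) ^ 2 - 42 / 5 * c * Real.pi) * 2 / (42 / 5 * c * ((42 / 5 * c) ^ 2 + 4))
      ≤ (1 / T) * 2 / (42 / 5 * c0 * ((42 / 5 * c0) ^ 2 + 4)) := by
        gcongr
        exact e1.trans e2
    _ = _ := by
        field_simp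

/-- Taylor polynomial of degree six -/
noncomputable def T6 (x : ℝ) : ℝ :=
  1 + x + x ^ 2 / 2 + x ^ 3 / 6 + x ^ 4 / 24 + x ^ 5 / 120 + x ^ 6 / 720

set_option maxHeartbeats 4000000 in
lemma step (ε v z C K β J e1 e2 c0 A0 B0 C0 E0 : ℝ)
    (he1 : e1 ≤ ε) (he2 : ε ≤ e2) (h1 : 0.19625 ≤ e1) (h2 : e2 ≤ 1 / 2)
    (hβ0 : 0 ≤ β) (hβ1 : β ≤ 1 / 4)
    (hz1 : 1 - ε / 3 + ε ^ 2 / 10 - ε ^ 3 / 42 ≤ z) (hz2 : z ≤ 1 - ε / 3 + ε ^ 2 / 10)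
    (hC : 2 / 15 * Real.exp (-(3 * ε / 7)) ≤ C)
    (hv1 : 1 / 3 - 4 / 45 * ε ≤ v) (hv2 : v ≤ 1 / 3 - 0.078 * ε)
    (hK : K ≤ 0.00148 + 0.0079 * ε ^ 2)
    (hJ : Lf (β / 14) (v * (1 - β)) ≤ J)
    (hc0 : 0 < c0)
    (hc : c0 ≤ (1 / 3 - 4 / 45 * e2) / 2 - 2 * e2 / (1 - e2 / 3 + e2 ^ 2 / 10 - e2 ^ 3 / 42) * 0.052 * (1 / 4))
    (hC0 : C0 ≤ 1 - (3 * e2 / 7) + (3 * e2 / 7) ^ 2 / 2 - (3 * e2 / 7) ^ 3 / 6 - (3 * e2 / 7) ^ 4 * (5 / 96))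
    (hC00 : 0 ≤ C0)
    (hE0 : 2 / (T6 (8.748 * c0) * (42 / 5 * c0 * ((42 / 5 * c0) ^ 2 + 4))) ≤ E0)
    (hA0 : A0 ≤ T6 ((1 / 3 - 4 / 45 * e2) * 9.869 / 2)) (_hA00 : 0 < A0)
    (hL0 : 0 ≤ Lf (1 / 56) ((1 / 3 - 0.078 * e1) * (3 / 4)))
    (hB0 : B0 ≤ (2 / 15 * C0) * (3 / 8 * Lf (1 / 56) ((1 / 3 - 0.078 * e1) * (3 / 4))) -
        (1 - e1 / 3 + e1 ^ 2 / 10) / (8 * e1) * E0) (hB00 : 0 ≤ B0)
    (hfin : 1.07 * (3 * (3.1416 / 2) ^ 4 * (0.00148 + 0.0079 * e2 ^ 2)) ≤ A0 * B0) :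
    0 < v / 2 - 2 * ε / z * 0.052 * β ∧
    1.07 * (3 * (Real.pi / 2) ^ 4 * K) ≤ Real.exp (v * 1 * Real.pi ^ 2 / 2) *
      ((1 - β) / 2 * C * J - z / (8 * ε) * Eb (1 * v / 2 - 2 * ε / z * 0.052 * β)) := by
  have hε : 0 < ε := by linarith
  have he10 : 0 < e1 := by linarith
  have he20 : 0 < e2 := by linarith
  have hzlo : 1 - e2 / 3 + e2 ^ 2 / 10 - e2 ^ 3 / 42 ≤ z := by
    refine le_trans ?_ hz1
    have q1 : e2 ^ 2 - ε ^ 2 ≤ (e2 - ε) := by nlinarith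
    have q2 : 0 ≤ e2 ^ 3 - ε ^ 3 := by
      have : ε ^ 3 ≤ e2 ^ 3 := by gcongr
      linarith
    linarith
  have hzlo0 : 0 < 1 - e2 / 3 + e2 ^ 2 / 10 - e2 ^ 3 / 42 := by
    have q1 : e2 ^ 3 ≤ (1 / 2) ^ 3 := by gcongr
    have q2 : 0 ≤ e2 ^ 2 := by positivity
    linarith
  have hz0 : 0 < z := by linarith
  have hzhi : z ≤ 1 - e1 / 3 + e1 ^ 2 / 10 := by
    refine hz2.trans ?_
    have q1 : ε ^ 2 - e1 ^ 2 ≤ (ε - e1) := by nlinarith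
    linarith
  have hvlo : 1 / 3 - 4 / 45 * e2 ≤ v := by linarith
  have hvhi : v ≤ 1 / 3 - 0.078 * e1 := by linarith
  have hκ : 2 * ε / z * 0.052 * β ≤
      2 * e2 / (1 - e2 / 3 + e2 ^ 2 / 10 - e2 ^ 3 / 42) * 0.052 * (1 / 4) := by
    gcongr
  have hcc : c0 ≤ v / 2 - 2 * ε / z * 0.052 * β := by linarith
  have hEb : Eb (1 * v / 2 - 2 * ε / z * 0.052 * β) ≤ E0 := by
    refine le_trans ?_ hE0
    have := Eb_bound (1 * v / 2 - 2 * ε / z * 0.052 * β) c0 hc0 (by linarith)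
    exact this
  have hEb0 : 0 ≤ Eb (1 * v / 2 - 2 * ε / z * 0.052 * β) := by
    unfold Eb
    have : 0 < 1 * v / 2 - 2 * ε / z * 0.052 * β := by linarith
    positivity
  refine ⟨by linarith, ?_⟩
  have hJ' : 3 / 8 * Lf (1 / 56) ((1 / 3 - 0.078 * e1) * (3 / 4)) ≤ (1 - β) / 2 * J := by
    have hv28 : 0.28 ≤ v := by linarith only [hvlo, h2]
    have hv32' : 1 / 3 - 0.078 * e1 ≤ 0.32 := by linarith only [h1]
    have a1 := L_mono v (1 / 3 - 0.078 * e1) hv28 hvhi hv32'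
    have a2 := F_mono β v hβ0 hβ1 hv28 (hvhi.trans hv32')
    have a3 : (1 - β) / 2 * Lf (β / 14) (v * (1 - β)) ≤ (1 - β) / 2 * J := by
      have : 0 ≤ (1 - β) / 2 := by linarith only [hβ1]
      gcongr
    linarith only [a1, a2, a3]
  have hCC : C0 ≤ Real.exp (-(3 * ε / 7)) := by
    refine hC0.trans ((exp_neg_lb (3 * e2 / 7) (by positivity) (by linarith only [h2])).trans ?_)
    apply Real.exp_le_exp.2
    linarith only [he2]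
  have hmain1 : (2 / 15 * C0) * (3 / 8 * Lf (1 / 56) ((1 / 3 - 0.078 * e1) * (3 / 4))) ≤
      (1 - β) / 2 * C * J := by
    have b1 : 2 / 15 * C0 ≤ C := by linarith only [hCC, hC]
    have b2 : 0 ≤ 2 / 15 * C0 := by positivity
    have b3 : 0 ≤ 3 / 8 * Lf (1 / 56) ((1 / 3 - 0.078 * e1) * (3 / 4)) := by positivity
    have b4 : (2 / 15 * C0) * (3 / 8 * Lf (1 / 56) ((1 / 3 - 0.078 * e1) * (3 / 4))) ≤
        C * ((1 - β) / 2 * J) := mul_le_mul b1 hJ' b3 (b2.trans b1)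
    have b5 : C * ((1 - β) / 2 * J) = (1 - β) / 2 * C * J := by ring
    rw [b5] at b4
    exact b4
  have hmain2 : z / (8 * ε) * Eb (1 * v / 2 - 2 * ε / z * 0.052 * β) ≤
      (1 - e1 / 3 + e1 ^ 2 / 10) / (8 * e1) * E0 := by
    have b1 : z / (8 * ε) ≤ (1 - e1 / 3 + e1 ^ 2 / 10) / (8 * e1) := by
      gcongr
      exact hz0.le.trans hzhi
    have b2 : (0:ℝ) ≤ z / (8 * ε) := by positivity
    exact mul_le_mul b1 hEb hEb0 (b2.trans b1)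
  have hB : B0 ≤ (1 - β) / 2 * C * J - z / (8 * ε) * Eb (1 * v / 2 - 2 * ε / z * 0.052 * β) := by
    linarith only [hB0, hmain1, hmain2]
  have hpi := Real.pi_gt_d4
  have hpi2 := Real.pi_lt_d4
  have hpisq : 9.869 ≤ Real.pi ^ 2 := by
    have : (3.1415:ℝ) ^ 2 ≤ Real.pi ^ 2 := by gcongr
    refine le_trans ?_ this
    norm_num
  have hA : A0 ≤ Real.exp (v * 1 * Real.pi ^ 2 / 2) := by
    have hx0 : 0 ≤ (1 / 3 - 4 / 45 * e2) * 9.869 / 2 := by linarith only [h2]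
    refine hA0.trans ((exp_lb ((1 / 3 - 4 / 45 * e2) * 9.869 / 2) hx0).trans ?_)
    apply Real.exp_le_exp.2
    have hv0 : 0 ≤ v := by linarith only [hvlo, h2]
    have : (1 / 3 - 4 / 45 * e2) * 9.869 ≤ v * Real.pi ^ 2 := by gcongr
    linarith only [this]
  have hlhs : 1.07 * (3 * (Real.pi / 2) ^ 4 * K) ≤
      1.07 * (3 * (3.1416 / 2) ^ 4 * (0.00148 + 0.0079 * e2 ^ 2)) := by
    have hpi3 : Real.pi ≤ 3.1416 := hpi2.le
    have hp0 := Real.pi_pos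
    have hε2 : ε ^ 2 ≤ e2 ^ 2 := pow_le_pow_left₀ hε.le he2 2
    have hK2 : K ≤ 0.00148 + 0.0079 * e2 ^ 2 := by linarith only [hK, hε2]
    have hK3 : 0 ≤ 0.00148 + 0.0079 * e2 ^ 2 := by positivity
    have hpp : (Real.pi / 2) ^ 4 ≤ (3.1416 / 2) ^ 4 :=
      pow_le_pow_left₀ (by positivity) (by linarith only [hpi3]) 4
    have hpp0 : 0 ≤ (Real.pi / 2) ^ 4 := by positivity
    have h5 : (Real.pi / 2) ^ 4 * K ≤ (3.1416 / 2) ^ 4 * (0.00148 + 0.0079 * e2 ^ 2) :=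
      (mul_le_mul_of_nonneg_left hK2 hpp0).trans (mul_le_mul_of_nonneg_right hpp hK3)
    linarith only [h5]
  calc _ ≤ _ := hlhs
    _ ≤ _ := hfin
    _ ≤ _ := mul_le_mul hA hB hB00 (Real.exp_pos _).le

lemma core (ε v z C K β J : ℝ)
    (h1 : 0.19625 ≤ ε) (h2 : ε ≤ 1 / 2)
    (hβ0 : 0 ≤ β) (hβ1 : β ≤ 1 / 4)
    (hz1 : 1 - ε / 3 + ε ^ 2 / 10 - ε ^ 3 / 42 ≤ z) (hz2 : z ≤ 1 - ε / 3 + ε ^ 2 / 10)
    (hC : 2 / 15 * Real.exp (-(3 * ε / 7)) ≤ C)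
    (hv1 : 1 / 3 - 4 / 45 * ε ≤ v) (hv2 : v ≤ 1 / 3 - 0.078 * ε)
    (hK : K ≤ 0.00148 + 0.0079 * ε ^ 2)
    (hJ : Lf (β / 14) (v * (1 - β)) ≤ J) :
    0 < v / 2 - 2 * ε / z * 0.052 * β ∧
    1.07 * (3 * (Real.pi / 2) ^ 4 * K) ≤ Real.exp (v * 1 * Real.pi ^ 2 / 2) *
      ((1 - β) / 2 * C * J - z / (8 * ε) * Eb (1 * v / 2 - 2 * ε / z * 0.052 * β)) := by
  rcases le_total ε 0.24 with ha | ha
  · exact step ε v z C K β J 0.19625 0.24 0.1492 4.657 0.01154 0.9022 0.0777 h1 ha (by norm_num)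
      (by norm_num) hβ0 hβ1 hz1 hz2 hC hv1 hv2 hK hJ (by norm_num) (by norm_num) (by norm_num)
      (by norm_num) (by norm_num [T6]) (by norm_num [T6]) (by norm_num) (by norm_num [Lf])
      (by norm_num [Lf]) (by norm_num) (by norm_num)
  rcases le_total ε 0.3 with hb | hb
  · exact step ε v z C K β J 0.24 0.3 0.1447 4.537 0.01591 0.8793 0.0848 ha hb (by norm_num)
      (by norm_num) hβ0 hβ1 hz1 hz2 hC hv1 hv2 hK hJ (by norm_num) (by norm_num) (by norm_num)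
      (by norm_num) (by norm_num [T6]) (by norm_num [T6]) (by norm_num) (by norm_num [Lf])
      (by norm_num [Lf]) (by norm_num) (by norm_num)
  rcases le_total ε 0.4 with hc | hc
  · exact step ε v z C K β J 0.3 0.4 0.137 4.342 0.01748 0.8423 0.0985 hb hc (by norm_num)
      (by norm_num) hβ0 hβ1 hz1 hz2 hC hv1 hv2 hK hJ (by norm_num) (by norm_num) (by norm_num)
      (by norm_num) (by norm_num [T6]) (by norm_num [T6]) (by norm_num) (by norm_num [Lf])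
      (by norm_num [Lf]) (by norm_num) (by norm_num)
  · exact step ε v z C K β J 0.4 0.5 0.1292 4.157 0.02138 0.8069 0.115 hc (by linarith) (by norm_num)
      (by norm_num) hβ0 hβ1 hz1 hz2 hC hv1 hv2 hK hJ (by norm_num) (by norm_num) (by norm_num)
      (by norm_num) (by norm_num [T6]) (by norm_num [T6]) (by norm_num) (by norm_num [Lf])
      (by norm_num [Lf]) (by norm_num) (by norm_num)

/-- **TF18** -/
theorem tf18 : S_TF18 := by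
  intro h14 h15 h2 h16 h17 ε b hε1 hε2 hb0 hb1
  obtain ⟨hz1, hz2, hch, hv1, hv2⟩ := h14 ε (by linarith) hε2
  have hK := h15 h2 ε (by linarith) hε2
  have hβ1 : b ^ 2 ≤ 1 / 4 := by nlinarith
  have hβ0 : 0 ≤ b ^ 2 := by positivity
  have hv0 : 0.28 ≤ vv ε := by linarith
  have hv32 : vv ε ≤ 0.32 := by linarith
  have hJ := h17 h16 (b ^ 2 / 14) (vv ε * (1 - b ^ 2)) (by positivity) (by linarith)
    (by nlinarith) (by nlinarith)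
  exact core ε (vv ε) (zt ε) (ch ε 0) (KK3 ε 3) (b ^ 2) _ hε1 hε2 hβ0 hβ1 hz1 hz2 hch hv1 hv2 hK hJ

end Pool.Agent.H142.TF18

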